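import Pool.Agent.W34.GB.Stm

set_option autoImplicit false

open Polynomial Pool.Agent.H337R2 Filter

namespace Pool.Agent.W347.GZ

open Pool.Agent.W34.GB

noncomputable section

/-- the sum of the absolute values of the first two coefficients -/
def nn (f : PowerSeries ℚ) : ℚ := |PowerSeries.coeff 0 f| + |PowerSeries.coeff 1 f|

lemma nn_nonneg (f : PowerSeries ℚ) : 0 ≤ nn f := by unfold nn; positivity

lemma nn_mul (f g : PowerSeries ℚ) : nn (f * g) ≤ nn f * nn g := by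
  unfold nn
  have h0 : PowerSeries.coeff 0 (f * g) = PowerSeries.coeff 0 f * PowerSeries.coeff 0 g := by
    rw [PowerSeries.coeff_mul]; simp
  have h1 : PowerSeries.coeff 1 (f * g) = PowerSeries.coeff 0 f * PowerSeries.coeff 1 g +
      PowerSeries.coeff 1 f * PowerSeries.coeff 0 g := by
    rw [PowerSeries.coeff_mul, Finset.Nat.sum_antidiagonal_eq_sum_range_succ_mk,
      Finset.sum_range_succ, Finset.sum_range_succ]
    simp
  rw [h0, h1, abs_mul]
  have h2 := abs_add_le (PowerSeries.coeff 0 f * PowerSeries.coeff 1 g)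
    (PowerSeries.coeff 1 f * PowerSeries.coeff 0 g)
  rw [abs_mul, abs_mul] at h2
  have h3 : 0 ≤ |PowerSeries.coeff 1 f| * |PowerSeries.coeff 1 g| := by positivity
  nlinarith

lemma nn_add (f g : PowerSeries ℚ) : nn (f + g) ≤ nn f + nn g := by
  unfold nn
  rw [map_add, map_add]
  have h1 := abs_add_le (PowerSeries.coeff 0 f) (PowerSeries.coeff 0 g)
  have h2 := abs_add_le (PowerSeries.coeff 1 f) (PowerSeries.coeff 1 g)
  linarith

lemma nn_one : nn 1 = 1 := by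
  simp [nn, PowerSeries.coeff_one]

lemma nn_lin (a : ℚ) : nn (PowerSeries.X + PowerSeries.C a) = |a| + 1 := by
  simp [nn]

lemma nn_C_mul (c : ℚ) (f : PowerSeries ℚ) : nn (PowerSeries.C c * f) = |c| * nn f := by
  unfold nn
  rw [PowerSeries.coeff_C_mul, PowerSeries.coeff_C_mul, abs_mul, abs_mul]; ring

lemma nn_prod {ι : Type} (s : Finset ι) (f : ι → PowerSeries ℚ) {B : ℚ} (hB : 0 ≤ B)
    (h : ∀ i ∈ s, nn (f i) ≤ B) : nn (∏ i ∈ s, f i) ≤ B ^ s.card := by
  classical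
  induction s using Finset.induction_on with
  | empty => simp [nn_one]
  | insert a s ha ih =>
    rw [Finset.prod_insert ha, Finset.card_insert_of_notMem ha, pow_succ']
    refine (nn_mul _ _).trans ?_
    exact mul_le_mul (h a (Finset.mem_insert_self _ _))
      (ih fun i hi => h i (Finset.mem_insert_of_mem hi)) (nn_nonneg _) hB

lemma nn_pow (f : PowerSeries ℚ) {B : ℚ} (hB : 0 ≤ B) (h : nn f ≤ B) (n : ℕ) :
    nn (f ^ n) ≤ B ^ n := by
  have := nn_prod (Finset.range n) (fun _ => f) hB (fun _ _ => h)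
  simpa using this

lemma nn_iv {a : ℚ} (ha : 1 ≤ |a|) : nn (iv a) ≤ 2 := by
  unfold nn iv
  rw [PowerSeries.coeff_mk, PowerSeries.coeff_mk, abs_div, abs_div]
  have h0 : 0 < |a| := by linarith
  have h1 : |(-1 : ℚ) ^ 0| / |a ^ (0 + 1)| ≤ 1 := by
    simp
    exact inv_le_one_of_one_le₀ ha
  have h2 : |(-1 : ℚ) ^ 1| / |a ^ (1 + 1)| ≤ 1 := by
    simp only [pow_one, abs_neg, abs_one, abs_pow]
    rw [div_le_one (by positivity)]
    exact one_le_pow₀ ha
  linarith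

lemma coeff_le_nn (f : PowerSeries ℚ) {j : ℕ} (hj : j ≤ 1) : |PowerSeries.coeff j f| ≤ nn f := by
  unfold nn
  interval_cases j
  · have := abs_nonneg (PowerSeries.coeff 1 f); linarith
  · have := abs_nonneg (PowerSeries.coeff 0 f); linarith

/-- the ring homomorphism `P ↦ P (X - k)` on `mp n` composed with a shift -/
lemma nn_mp (c a : ℚ) (Q : ℚ) (N : ℕ) (hQ : |c - a| + 1 + N ≤ Q) (n : ℕ) (hn : n ≤ N) :
    nn (TS c ((mp n).comp (X - C a))) ≤ Q ^ n := by
  have hQ1 : |c - a| + 1 ≤ Q := by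
    have : (0 : ℚ) ≤ N := by positivity
    linarith
  have hQ0 : 0 ≤ Q := by
    have := abs_nonneg (c - a); linarith
  have hX : TS c ((X : ℚ[X]).comp (X - C a)) = PowerSeries.X + PowerSeries.C (c - a) := by
    rw [X_comp, sub_eq_add_neg, ← C_neg, TS_lin, ← sub_eq_add_neg]
  induction n using Nat.strong_induction_on with
  | _ n ih =>
    rcases n with _ | _ | n
    · simp [mp, nn_one]
    · simp only [mp, zero_add, pow_one]
      rw [hX, nn_lin]
      exact hQ1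
    · have h1 := ih (n + 1) (by omega) (by omega)
      have h2 := ih n (by omega) (by omega)
      have e : TS c ((mp (n + 2)).comp (X - C a)) =
          (PowerSeries.X + PowerSeries.C (c - a)) * TS c ((mp (n + 1)).comp (X - C a)) +
            PowerSeries.C (((n : ℚ) + 1) * n / 16) * TS c ((mp n).comp (X - C a)) := by
        rw [mp, add_comp, mul_comp, mul_comp, C_comp, map_add, map_mul, map_mul, hX, TS_C]
      rw [e]
      have hn1 : (n : ℚ) + 2 ≤ N := by exact_mod_cast hn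
      have hn0 : (0 : ℚ) ≤ n := by positivity
      have hab := abs_nonneg (c - a)
      have h3 : |((n : ℚ) + 1) * n / 16| ≤ n * Q := by
        rw [abs_of_nonneg (by positivity)]
        have : ((n : ℚ) + 1) / 16 ≤ Q := by linarith
        calc ((n : ℚ) + 1) * n / 16 = n * (((n : ℚ) + 1) / 16) := by ring
          _ ≤ n * Q := mul_le_mul_of_nonneg_left this hn0
      calc nn ((PowerSeries.X + PowerSeries.C (c - a)) * TS c ((mp (n + 1)).comp (X - C a)) +
            PowerSeries.C (((n : ℚ) + 1) * n / 16) * TS c ((mp n).comp (X - C a)))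
          ≤ nn ((PowerSeries.X + PowerSeries.C (c - a)) * TS c ((mp (n + 1)).comp (X - C a))) +
            nn (PowerSeries.C (((n : ℚ) + 1) * n / 16) * TS c ((mp n).comp (X - C a))) := nn_add _ _
        _ ≤ (|c - a| + 1) * Q ^ (n + 1) + (n * Q) * Q ^ n := by
            apply add_le_add
            · refine (nn_mul _ _).trans ?_
              rw [nn_lin]
              exact mul_le_mul_of_nonneg_left h1 (by positivity)
            · rw [nn_C_mul]
              exact mul_le_mul h3 h2 (nn_nonneg _) (by positivity)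
        _ = (|c - a| + 1 + n) * Q ^ (n + 1) := by ring
        _ ≤ Q * Q ^ (n + 1) := mul_le_mul_of_nonneg_right (by linarith) (by positivity)
        _ = Q ^ (n + 2) := by ring

lemma zn_bd (σ l : ℕ) (hσ : σ = 1 ∨ σ = 3) : 0 ≤ zn σ l ∧ zn σ l ≤ (l : ℚ) / 2 + 1 := by
  have h1 : (((l / 2 : ℕ)) : ℚ) ≤ (l : ℚ) / 2 := by
    have := Nat.cast_div_le (α := ℚ) (m := l) (n := 2)
    simpa using this
  have h0 : (0 : ℚ) ≤ ((l / 2 : ℕ) : ℚ) := by positivity
  have h2 : 0 ≤ (if l % 2 = 0 then min ((σ : ℚ) / 4) (1 / 2) else max ((σ : ℚ) / 4) (1 / 2)) ∧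
      (if l % 2 = 0 then min ((σ : ℚ) / 4) (1 / 2) else max ((σ : ℚ) / 4) (1 / 2)) ≤ 1 := by
    rcases hσ with rfl | rfl <;> split_ifs <;> norm_num
  unfold zn
  constructor <;> linarith [h2.1, h2.2]

lemma nn_Zp (σ h k j : ℕ) (hσ : σ = 1 ∨ σ = 3) (hh : 1 ≤ h) (hk : k ∈ sN h) (hj : j ≤ 2 * KK h) :
    nn (TS (-(k : ℚ)) (Zp σ j)) ≤ (7 * (h : ℚ)) ^ j := by
  have hh1 : (1 : ℚ) ≤ h := by exact_mod_cast hh
  unfold sN at hk
  rw [Finset.mem_Icc] at hk
  have hk1 : (k : ℚ) ≤ 2 * h := by exact_mod_cast hk.2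
  have hk0 : (0 : ℚ) ≤ k := by positivity
  unfold Zp
  rw [map_prod]
  have h1 := nn_prod (Finset.range j) (fun i => TS (-(k : ℚ)) (X - C (zn σ i)))
    (B := 7 * (h : ℚ)) (by positivity) (by
      intro i hi
      rw [Finset.mem_range] at hi
      have h2 := zn_bd σ i hσ
      have h3 : (i : ℚ) ≤ 2 * h := by
        have : i ≤ 2 * h := by unfold KK at hj; omega
        exact_mod_cast this
      rw [sub_eq_add_neg, ← C_neg, TS_lin, nn_lin]
      have h4 : |-(k : ℚ) + -zn σ i| = k + zn σ i := by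
        rw [abs_of_nonpos (by linarith [h2.1])]; ring
      rw [h4]
      linarith [h2.2])
  rwa [Finset.card_range] at h1

lemma nn_PJ (σ h k j : ℕ) (hσ : σ = 1 ∨ σ = 3) (hh : 1 ≤ h) (hk : k ∈ sN h) (hj : j < 3 * h) :
    nn (TS (-(k : ℚ)) (PJ h σ j)) ≤ (7 * (h : ℚ)) ^ (3 * h) := by
  have hh1 : (1 : ℚ) ≤ h := by exact_mod_cast hh
  have h7 : (1 : ℚ) ≤ 7 * (h : ℚ) := by linarith
  unfold PJ
  split_ifs with hc
  · refine (nn_Zp σ h k j hσ hh hk hc.le).trans ?_
    exact pow_le_pow_right₀ h7 (by omega)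
  · rw [map_mul]
    have h1 := nn_Zp σ h k (2 * KK h) hσ hh hk le_rfl
    have hk' := hk
    unfold sN at hk'
    rw [Finset.mem_Icc] at hk'
    have hk1 : (k : ℚ) ≤ 2 * h := by exact_mod_cast hk'.2
    have hk0 : (1 : ℚ) ≤ k := by exact_mod_cast hk'.1
    have hK : (KK h : ℚ) ≤ h / 3 := by
      unfold KK
      have := Nat.cast_div_le (α := ℚ) (m := h) (n := 3)
      simpa using this
    have hK0 : (0 : ℚ) ≤ KK h := by positivity
    have h2 := nn_mp (-(k : ℚ)) ((KK h : ℚ) - 1 / 4) (7 * h) (3 * h) (by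
      have h4 : |-(k : ℚ) - ((KK h : ℚ) - 1 / 4)| = k + KK h - 1 / 4 := by
        rw [abs_of_nonpos (by linarith)]; ring
      rw [h4]
      push_cast
      linarith) (j - 2 * KK h) (by omega)
    refine (nn_mul _ _).trans ?_
    calc nn (TS (-(k : ℚ)) (Zp σ (2 * KK h))) *
          nn (TS (-(k : ℚ)) ((mp (j - 2 * KK h)).comp (X - C ((KK h : ℚ) - 1 / 4))))
        ≤ (7 * (h : ℚ)) ^ (2 * KK h) * (7 * (h : ℚ)) ^ (j - 2 * KK h) :=
          mul_le_mul h1 h2 (nn_nonneg _) (by positivity)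
      _ = (7 * (h : ℚ)) ^ j := by rw [← pow_add]; congr 1; omega
      _ ≤ (7 * (h : ℚ)) ^ (3 * h) := pow_le_pow_right₀ h7 hj.le

lemma pa_bd (σ h k i j e : ℕ) (hσ : σ = 1 ∨ σ = 3) (hh : 1 ≤ h) (hk : k ∈ sN h) (hi : i < 3 * h)
    (hj : j < 3 * h) (he : e = 2 ∨ e = 3) :
    |pa (sN h) m3 (PJ h σ i * PJ h σ j) k e| ≤ (7 * (h : ℚ)) ^ (6 * h) * 8 ^ (2 * h) := by
  have hh1 : (1 : ℚ) ≤ h := by exact_mod_cast hh
  unfold pa
  have he3 : e ≤ m3 k := by unfold m3; omega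
  rw [if_pos he3]
  unfold pfc
  refine (coeff_le_nn _ (by unfold m3; omega)).trans ?_
  refine (nn_mul _ _).trans ?_
  have h1 : nn (TS (-(k : ℚ)) (PJ h σ i * PJ h σ j)) ≤ (7 * (h : ℚ)) ^ (6 * h) := by
    rw [map_mul]
    refine (nn_mul _ _).trans ?_
    have e1 : (7 * (h : ℚ)) ^ (6 * h) = (7 * (h : ℚ)) ^ (3 * h) * (7 * (h : ℚ)) ^ (3 * h) := by
      rw [← pow_add]; congr 1; omega
    rw [e1]
    exact mul_le_mul (nn_PJ σ h k i hσ hh hk hi) (nn_PJ σ h k j hσ hh hk hj) (nn_nonneg _)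
      (by positivity)
  have h2 : nn (VV ((sN h).erase k) m3 (-(k : ℚ))) ≤ 8 ^ (2 * h) := by
    unfold VV
    have h3 := nn_prod ((sN h).erase k) (fun m => (iv (-(k : ℚ) + m)) ^ m3 m) (B := 8)
      (by norm_num) (by
        intro m hm
        have hmk := Finset.ne_of_mem_erase hm
        have h4 : 1 ≤ |-(k : ℚ) + m| := by
          have h5 : (-(k : ℚ) + m) = (((m : ℤ) - k : ℤ) : ℚ) := by push_cast; ring
          rw [h5, ← Int.cast_abs]
          have h6 : (1 : ℤ) ≤ |(m : ℤ) - k| := Int.one_le_abs (by omega)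
          exact_mod_cast h6
        have h5 := nn_pow (iv (-(k : ℚ) + m)) (B := 2) (by norm_num) (nn_iv h4) 3
        norm_num at h5
        simpa [m3] using h5)
    refine h3.trans (pow_le_pow_right₀ (by norm_num) ?_)
    refine (Finset.card_erase_le).trans ?_
    unfold sN
    simp
  exact mul_le_mul h1 h2 (nn_nonneg _) (by positivity)

lemma sum_bd (σ h i j e : ℕ) (hσ : σ = 1 ∨ σ = 3) (hh : 100 ≤ h) (hi : i < 3 * h)
    (hj : j < 3 * h) (he : e = 2 ∨ e = 3) :
    |((∑ k ∈ sN h, pa (sN h) m3 (PJ h σ i * PJ h σ j) k e : ℚ) : ℝ)| ≤ (h : ℝ) ^ (16 * h) := by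
  have hh1 : (100 : ℝ) ≤ h := by exact_mod_cast hh
  have h1 : |(∑ k ∈ sN h, pa (sN h) m3 (PJ h σ i * PJ h σ j) k e : ℚ)| ≤
      (2 * h : ℚ) * ((7 * (h : ℚ)) ^ (6 * h) * 8 ^ (2 * h)) := by
    refine (Finset.abs_sum_le_sum_abs _ _).trans ?_
    refine (Finset.sum_le_card_nsmul _ _ _ fun k hk =>
      pa_bd σ h k i j e hσ (by omega) hk hi hj he).trans ?_
    rw [nsmul_eq_mul]
    unfold sN
    simp
  have h2 : |((∑ k ∈ sN h, pa (sN h) m3 (PJ h σ i * PJ h σ j) k e : ℚ) : ℝ)| ≤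
      (2 * h : ℝ) * ((7 * (h : ℝ)) ^ (6 * h) * 8 ^ (2 * h)) := by
    rw [← Rat.cast_abs]
    have := (Rat.cast_le (K := ℝ)).2 h1
    push_cast at this ⊢
    exact this
  refine h2.trans ?_
  have e1 : (7 * (h : ℝ)) ≤ h ^ 2 := by nlinarith
  have e2 : (8 : ℝ) ≤ h := by linarith
  have e3 : (2 * h : ℝ) ≤ h ^ 2 := by nlinarith
  calc (2 * h : ℝ) * ((7 * (h : ℝ)) ^ (6 * h) * 8 ^ (2 * h))
      ≤ (h : ℝ) ^ 2 * (((h : ℝ) ^ 2) ^ (6 * h) * (h : ℝ) ^ (2 * h)) := by gcongr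
    _ = (h : ℝ) ^ (2 + (2 * (6 * h) + 2 * h)) := by rw [← pow_mul, ← pow_add, ← pow_add]
    _ ≤ (h : ℝ) ^ (16 * h) := pow_le_pow_right₀ (by linarith) (by omega)

lemma bb_bd (h j : ℕ) (hh : 100 ≤ h) (hj : j < 2 * KK h) : 1 / (h : ℝ) ^ (12 * h) ≤ bb h j := by
  have hh1 : (100 : ℝ) ≤ h := by exact_mod_cast hh
  unfold bb
  have hnum : (1 : ℝ) ≤ ∏ i ∈ Finset.range j, ((KK h : ℝ) - (i : ℝ) / 2) ^ 2 := by
    apply Finset.prod_induction _ (fun x : ℝ => 1 ≤ x)
    · intro a b ha hb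
      nlinarith
    · exact le_rfl
    · intro i hi
      rw [Finset.mem_range] at hi
      have h1 : (i : ℝ) + 2 ≤ 2 * KK h := by exact_mod_cast (by omega : i + 2 ≤ 2 * KK h)
      have h2 : 1 ≤ (KK h : ℝ) - (i : ℝ) / 2 := by linarith
      nlinarith
  have hden : (∏ k ∈ Finset.Icc 1 (2 * h), ((j : ℝ) / 2 + k)) ^ 3 ≤ (h : ℝ) ^ (12 * h) := by
    have h1 : ∏ k ∈ Finset.Icc 1 (2 * h), ((j : ℝ) / 2 + k) ≤ ((h : ℝ) ^ 2) ^ (2 * h) := by
      have h2 : ∏ k ∈ Finset.Icc 1 (2 * h), ((j : ℝ) / 2 + k) ≤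
          ∏ _k ∈ Finset.Icc 1 (2 * h), ((h : ℝ) ^ 2) := by
        apply Finset.prod_le_prod
        · intro k _; positivity
        · intro k hk
          rw [Finset.mem_Icc] at hk
          have h3 : (k : ℝ) ≤ 2 * h := by exact_mod_cast hk.2
          have h4 : (j : ℝ) ≤ 2 * h := by
            have : j ≤ 2 * h := by unfold KK at hj; omega
            exact_mod_cast this
          nlinarith
      rw [Finset.prod_const, Nat.card_Icc] at h2
      simpa using h2
    calc (∏ k ∈ Finset.Icc 1 (2 * h), ((j : ℝ) / 2 + k)) ^ 3 ≤ (((h : ℝ) ^ 2) ^ (2 * h)) ^ 3 :=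
          pow_le_pow_left₀ (Finset.prod_nonneg fun k _ => by positivity) h1 3
      _ = (h : ℝ) ^ (12 * h) := by rw [← pow_mul, ← pow_mul]; congr 1; omega
  have hdpos : 0 < (∏ k ∈ Finset.Icc 1 (2 * h), ((j : ℝ) / 2 + k)) ^ 3 := by
    apply pow_pos
    apply Finset.prod_pos
    intro k hk
    rw [Finset.mem_Icc] at hk
    have h3 : (1 : ℝ) ≤ k := by exact_mod_cast hk.1
    positivity
  exact div_le_div₀ (by linarith) hnum hdpos hden

lemma cc_bd (h n : ℕ) (hh : 100 ≤ h) (hlog : 4 ≤ Real.log h) (hn : n ≤ 3 * h) :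
    Real.exp (-(16 * h * Real.log h)) ≤ cc h n := by
  have hh1 : (100 : ℝ) ≤ h := by exact_mod_cast hh
  unfold cc sR
  have h1 : (1 : ℝ) ≤ (n.factorial : ℝ) ^ 2 := by
    have : (1 : ℝ) ≤ (n.factorial : ℝ) := by exact_mod_cast n.factorial_pos
    nlinarith
  have h2 : (16 : ℝ) ^ n ≤ Real.exp (9 * h) := by
    have h3 : (16 : ℝ) ≤ Real.exp 3 := by
      have := Real.add_one_le_exp (1 : ℝ)
      have h4 : Real.exp 3 = Real.exp 1 ^ 3 := by rw [← Real.exp_nat_mul]; norm_num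
      have h5 : (2.7 : ℝ) ≤ Real.exp 1 := by
        have := Real.exp_one_gt_d9; linarith
      rw [h4]
      calc (16 : ℝ) ≤ 2.7 ^ 3 := by norm_num
        _ ≤ Real.exp 1 ^ 3 := pow_le_pow_left₀ (by norm_num) h5 3
    calc (16 : ℝ) ^ n ≤ (16 : ℝ) ^ (3 * h) := pow_le_pow_right₀ (by norm_num) hn
      _ ≤ (Real.exp 3) ^ (3 * h) := pow_le_pow_left₀ (by norm_num) h3 _
      _ = Real.exp (9 * h) := by rw [← Real.exp_nat_mul]; congr 1; push_cast; ring
  have hK0 : (0 : ℝ) ≤ KK h := by positivity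
  rw [le_div_iff₀ (by positivity)]
  calc Real.exp (-(16 * h * Real.log h)) * 16 ^ n
      ≤ Real.exp (-(16 * h * Real.log h)) * Real.exp (9 * h) :=
        mul_le_mul_of_nonneg_left h2 (Real.exp_pos _).le
    _ = Real.exp (-(16 * h * Real.log h) + 9 * h) := by rw [← Real.exp_add]
    _ ≤ Real.exp ((4 * (KK h : ℝ) - 6 * h) * Real.log h - 23 / 10 * h) := by
        rw [Real.exp_le_exp]
        have h3 : 0 ≤ (KK h : ℝ) * Real.log h := mul_nonneg hK0 (by linarith)
        have h4 : 4 * (h : ℝ) ≤ h * Real.log h := by nlinarith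
        nlinarith
    _ ≤ Real.exp ((4 * (KK h : ℝ) - 6 * h) * Real.log h - 23 / 10 * h) * (n.factorial : ℝ) ^ 2 :=
        le_mul_of_one_le_right (Real.exp_pos _).le h1

theorem a7 : A7s := by
  refine ⟨16, by norm_num, ?_⟩
  have h1 : ∀ᶠ h : ℕ in atTop, 4 ≤ Real.log h :=
    (Real.tendsto_log_atTop.comp tendsto_natCast_atTop_atTop).eventually_ge_atTop 4
  filter_upwards [eventually_ge_atTop 100, h1] with h hh hlog σ hσ
  have hh1 : (100 : ℝ) ≤ h := by exact_mod_cast hh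
  have hpow : ∀ n : ℕ, (h : ℝ) ^ n = Real.exp (n * Real.log h) := by
    intro n
    rw [Real.exp_nat_mul, Real.exp_log (by linarith)]
  refine ⟨fun i hi j hj e he => ?_, fun j hj => ?_⟩
  · refine (sum_bd σ h i j e hσ hh hi hj he).trans (le_of_eq ?_)
    rw [hpow]; push_cast; rfl
  · unfold aa
    split_ifs with hc
    · refine le_trans ?_ (bb_bd h j hh hc)
      rw [hpow, one_div, ← Real.exp_neg, Real.exp_le_exp]
      push_cast
      have : 0 ≤ (h : ℝ) * Real.log h := by positivity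
      nlinarith
    · exact cc_bd h _ hh hlog (by omega)

end

end Pool.Agent.W347.GZ
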